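import Pool.Agent.Work.MP_2a0c1d_co.P_CLEAN
import Pool.Agent.Work.MP_2a0c1d_co.P_EXT
import Pool.Agent.Work.MP_2a0c1d_co.P_GRA
import Pool.Agent.Work.MP_2a0c1d_co.P_INV14
import Pool.Agent.Work.MP_2a0c1d_co.P_INV5
import Pool.Agent.Work.MP_2a0c1d_co.P_LLL
import Pool.Agent.Work.MP_2a0c1d_co.P_LOOK
import Pool.Agent.Work.MP_2a0c1d_co.P_N1
import Pool.Agent.Work.MP_2a0c1d_co.P_NE1
import Pool.Agent.Work.MP_2a0c1d_co.P_NE2
import Pool.Agent.Work.MP_2a0c1d_co.P_NE3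
import Pool.Agent.Work.MP_2a0c1d_co.P_NE4
import Pool.Agent.Work.MP_2a0c1d_co.P_NE5
import Pool.Agent.Work.MP_2a0c1d_co.P_PB5
import Pool.Agent.Work.MP_2a0c1d_co.P_PN
import Pool.Agent.Work.MP_2a0c1d_co.P_S1
import Pool.Agent.Work.MP_2a0c1d_co.P_S2
import Pool.Agent.Work.MP_2a0c1d_co.P_S3
import Pool.Agent.Work.MP_2a0c1d_co.P_S4
import Pool.Agent.Work.MP_2a0c1d_co.P_S5
import Pool.Agent.Work.MP_2a0c1d_co.P_SEQ
import Pool.Agent.Work.MP_2a0c1d_co.P_SUPP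
import Pool.Agent.Work.MP_2a0c1d_co.P_SYM
import Pool.Agent.Work.MP_2a0c1d_co.P_TREE
import Pool.Agent.Work.MP_2a0c1d_co.Asm

/-!
# MP_2a0c1d_co: the diagonal Ramsey numbers exceed Spencer's bound by a lower order factor
-/

set_option autoImplicit false

namespace Pool.Agent.Results.MP_2a0c1d_co.LowerOrderTerm

open Pool.Agent.Work.MP_2a0c1d_co

/-- For every `ε > 0` and all large `t`: for every `n` below
`(1 + (1/2 - ε) log t / t) (√2 t / e) √2^t` some graph on `n` vertices has neither a `t`-clique nor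
an independent set of size `t`. -/
theorem result : ∀ ε : ℝ, 0 < ε → ∃ T : ℕ, ∀ t : ℕ, T ≤ t → ∀ n : ℕ,
    (n : ℝ) < (1 + (1 / 2 - ε) * Real.log t / t) * (Real.sqrt 2 * (t : ℝ) / Real.exp 1) *
      Real.sqrt 2 ^ t →
    ∃ G : SimpleGraph (Fin n), G.CliqueFree t ∧ Gᶜ.CliqueFree t :=
  pr_MAIN
    (pr_CORE pr_LLL pr_SYM pr_SUPP pr_INV14 pr_INV5 (pr_EXT pr_LOOK (pr_CLEAN pr_TREE))
      (pr_SUMALL pr_S1 pr_S2 (pr_S3 pr_PN) (pr_S4 pr_PN pr_SEQ) (pr_S5 pr_PB5) pr_N1 pr_NE1 pr_NE2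
        pr_NE3 pr_NE4 pr_NE5) pr_GRA)
    pr_GRA

end Pool.Agent.Results.MP_2a0c1d_co.LowerOrderTerm
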